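import Pool.Agent.REV.StmtsV3

set_option autoImplicit false

/-!
# Squad REV, row PD3: the density of a power (copy of Helper11_REV/VPD)
-/

open Set MeasureTheory Filter
open scoped Topology

namespace Pool.Agent.REV.H30

open Pool.Agent.REV

theorem pow_diff (A B : ℝ) (hA : 0 ≤ A) (hAB : A ≤ B) (p : ℕ) :
    ((p : ℝ) + 1) * A ^ p * (B - A) ≤ B ^ (p + 1) - A ^ (p + 1) ∧
      B ^ (p + 1) - A ^ (p + 1) ≤ ((p : ℝ) + 1) * B ^ p * (B - A) := by
  induction p with
  | zero => constructor <;> simp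
  | succ p ih =>
    have hB : 0 ≤ B := hA.trans hAB
    have hBA : 0 ≤ B - A := sub_nonneg.2 hAB
    have e : B ^ (p + 1 + 1) - A ^ (p + 1 + 1) =
        B * (B ^ (p + 1) - A ^ (p + 1)) + A ^ (p + 1) * (B - A) := by ring
    have h0 : 0 ≤ ((p : ℝ) + 1) * A ^ p * (B - A) := by positivity
    have hpow : A ^ (p + 1) ≤ B ^ (p + 1) := pow_le_pow_left₀ hA hAB _
    rw [e]
    push_cast
    constructor
    · have h1 : A * (((p : ℝ) + 1) * A ^ p * (B - A)) ≤ B * (B ^ (p + 1) - A ^ (p + 1)) :=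
        mul_le_mul hAB ih.1 h0 hB
      have e2 : ((p : ℝ) + 1 + 1) * A ^ (p + 1) * (B - A) =
          A * (((p : ℝ) + 1) * A ^ p * (B - A)) + A ^ (p + 1) * (B - A) := by ring
      rw [e2]
      linarith
    · have h1 : B * (B ^ (p + 1) - A ^ (p + 1)) ≤ B * (((p : ℝ) + 1) * B ^ p * (B - A)) :=
        mul_le_mul_of_nonneg_left ih.2 hB
      have h2 : A ^ (p + 1) * (B - A) ≤ B ^ (p + 1) * (B - A) :=
        mul_le_mul_of_nonneg_right hpow hBA
      have e2 : ((p : ℝ) + 1 + 1) * B ^ (p + 1) * (B - A) =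
          B * (((p : ℝ) + 1) * B ^ p * (B - A)) + B ^ (p + 1) * (B - A) := by ring
      rw [e2]
      linarith

theorem const_of_quad (Φ : ℝ → ℝ) (a b C : ℝ) (hab : a ≤ b)
    (h : ∀ s t : ℝ, a ≤ s → s ≤ t → t ≤ b → |Φ t - Φ s| ≤ C * (t - s) ^ 2) : Φ b = Φ a := by
  have key : ∀ N : ℕ, |Φ b - Φ a| ≤ C * (b - a) ^ 2 / ((N : ℝ) + 1) := by
    intro N
    have hN : (0 : ℝ) < (N : ℝ) + 1 := by positivity
    set δ := (b - a) / ((N : ℝ) + 1) with hδ
    have hδ0 : 0 ≤ δ := div_nonneg (sub_nonneg.2 hab) hN.le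
    have hδN : ((N : ℝ) + 1) * δ = b - a := by
      rw [hδ]
      field_simp
    have hstep : ∀ i : ℕ, (i : ℝ) ≤ (N : ℝ) + 1 → |Φ (a + i * δ) - Φ a| ≤ i * (C * δ ^ 2) := by
      intro i
      induction i with
      | zero => intro _; simp
      | succ i ih =>
        intro hi
        push_cast at hi ⊢
        have h1 := ih (by linarith)
        have hi0 : (0 : ℝ) ≤ (i : ℝ) := Nat.cast_nonneg i
        have h2 := h (a + i * δ) (a + ((i : ℝ) + 1) * δ)
          (by nlinarith [mul_nonneg hi0 hδ0]) (by nlinarith)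
          (by
            have : ((i : ℝ) + 1) * δ ≤ ((N : ℝ) + 1) * δ := mul_le_mul_of_nonneg_right hi hδ0
            linarith)
        have e : a + ((i : ℝ) + 1) * δ - (a + i * δ) = δ := by ring
        rw [e] at h2
        have h3 : Φ (a + ((i : ℝ) + 1) * δ) - Φ a =
            (Φ (a + ((i : ℝ) + 1) * δ) - Φ (a + i * δ)) + (Φ (a + i * δ) - Φ a) := by ring
        rw [h3]
        refine (abs_add_le _ _).trans ?_
        linarith
    have h1 := hstep (N + 1) (by push_cast; linarith)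
    push_cast at h1
    rw [hδN, add_sub_cancel] at h1
    refine h1.trans (le_of_eq ?_)
    rw [hδ]
    field_simp
  have hlim : Tendsto (fun N : ℕ => C * (b - a) ^ 2 / ((N : ℝ) + 1)) atTop (𝓝 0) := by
    have h1 := tendsto_const_div_atTop_nhds_zero_nat (C * (b - a) ^ 2)
    have h2 := (tendsto_add_atTop_iff_nat 1).2 h1
    refine h2.congr fun N => ?_
    push_cast
    rfl
  have h0 : |Φ b - Φ a| ≤ 0 := ge_of_tendsto' hlim key
  have h1 : Φ b - Φ a = 0 := abs_eq_zero.1 (le_antisymm h0 (abs_nonneg _))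
  linarith

theorem int_min : IntegrableOn (fun b : ℝ => min 1 ((b ^ 3)⁻¹)) (Ioi 0) := by
  have hm : Measurable fun b : ℝ => min 1 ((b ^ 3)⁻¹) := by fun_prop
  have e : Ioi (0 : ℝ) = Ioc 0 1 ∪ Ioi 1 := (Ioc_union_Ioi_eq_Ioi zero_le_one).symm
  rw [e]
  refine IntegrableOn.union ?_ ?_
  · refine Measure.integrableOn_of_bounded (M := 1) ?_ hm.aestronglyMeasurable ?_
    · rw [Real.volume_Ioc]
      exact ENNReal.ofReal_ne_top
    · refine (ae_restrict_iff' measurableSet_Ioc).2 (Eventually.of_forall fun b hb => ?_)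
      have h1 : 0 ≤ min 1 ((b ^ 3)⁻¹) := le_min zero_le_one (inv_nonneg.2 (pow_nonneg hb.1.le 3))
      rw [Real.norm_eq_abs, abs_of_nonneg h1]
      exact min_le_left _ _
  · have h1 : IntegrableOn (fun b : ℝ => b ^ (-3 : ℝ)) (Ioi 1) :=
      integrableOn_Ioi_rpow_of_lt (by norm_num) one_pos
    refine Integrable.mono' h1 hm.aestronglyMeasurable ?_
    refine (ae_restrict_iff' measurableSet_Ioi).2 (Eventually.of_forall fun b hb => ?_)
    have hb0 : (0 : ℝ) < b := lt_trans one_pos hb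
    have h2 : 0 ≤ min 1 ((b ^ 3)⁻¹) := le_min zero_le_one (inv_nonneg.2 (pow_nonneg hb0.le 3))
    rw [Real.norm_eq_abs, abs_of_nonneg h2]
    have e2 : b ^ (-3 : ℝ) = (b ^ 3)⁻¹ := by
      rw [show (-3 : ℝ) = -((3 : ℕ) : ℝ) by norm_num, Real.rpow_neg hb0.le, Real.rpow_natCast]
    rw [e2]
    exact min_le_right _ _

theorem pdg : ∀ (q : ℕ) (R K K' : ℝ) (y d : ℝ → ℝ), 0 ≤ K → 0 ≤ K' → MonotoneOn y (Ioi 0) →
    ContinuousOn y (Ioi 0) → (∀ b : ℝ, 0 < b → 0 ≤ y b ∧ y b ≤ K * b ∧ y b ≤ R) →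
    Tendsto y atTop (𝓝 R) → Measurable d →
    (∀ b : ℝ, 0 < b → 0 ≤ d b ∧ d b ≤ K' * min 1 ((b ^ 3)⁻¹)) →
    (∀ b b' : ℝ, 0 < b → b ≤ b' → y b' - y b = ∫ s in b..b', d s) →
    IntegrableOn (fun β : ℝ => (((q + 1 : ℕ) : ℝ) + 1) * y β ^ (q + 1) * d β) (Ioi 0) ∧
    (∫ β in Ioi (0 : ℝ), (((q + 1 : ℕ) : ℝ) + 1) * y β ^ (q + 1) * d β) = R ^ (q + 2) ∧
    ∀ b : ℝ, 0 < b →
      (∫ β in Ioi b, (((q + 1 : ℕ) : ℝ) + 1) * y β ^ (q + 1) * d β) =
        R ^ (q + 2) - y b ^ (q + 2) := by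
  intro q R K K' y d hK hK' hmono hcont hy hlim hdm hd hint
  have hR : 0 ≤ R := (hy 1 one_pos).1.trans (hy 1 one_pos).2.2
  set p : ℝ := ((q + 1 : ℕ) : ℝ) + 1 with hp
  have hp0 : 0 ≤ p := by positivity
  -- integrability
  have hgm : AEStronglyMeasurable (fun β : ℝ => p * y β ^ (q + 1) * d β)
      (volume.restrict (Ioi 0)) := by
    have h1 : AEStronglyMeasurable y (volume.restrict (Ioi 0)) :=
      hcont.aestronglyMeasurable measurableSet_Ioi
    exact ((h1.pow (q + 1)).const_mul p).mul hdm.aestronglyMeasurable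
  have hg0 : ∀ β : ℝ, 0 < β → 0 ≤ p * y β ^ (q + 1) * d β := by
    intro β hβ
    have h1 := (hy β hβ).1
    have h2 := (hd β hβ).1
    positivity
  have hI : IntegrableOn (fun β : ℝ => p * y β ^ (q + 1) * d β) (Ioi 0) := by
    refine Integrable.mono' (int_min.const_mul (p * R ^ (q + 1) * K')) hgm ?_
    refine (ae_restrict_iff' measurableSet_Ioi).2 (Eventually.of_forall fun β hβ => ?_)
    have hβ0 : (0 : ℝ) < β := hβ
    rw [Real.norm_eq_abs, abs_of_nonneg (hg0 β hβ0)]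
    have h1 : y β ^ (q + 1) ≤ R ^ (q + 1) := pow_le_pow_left₀ (hy β hβ0).1 (hy β hβ0).2.2 _
    have h2 := (hd β hβ0).2
    calc p * y β ^ (q + 1) * d β ≤ p * R ^ (q + 1) * (K' * min 1 ((β ^ 3)⁻¹)) :=
          mul_le_mul (mul_le_mul_of_nonneg_left h1 hp0) h2 (hd β hβ0).1 (by positivity)
      _ = p * R ^ (q + 1) * K' * min 1 ((β ^ 3)⁻¹) := by ring
  have hdI : IntegrableOn d (Ioi 0) := by
    refine Integrable.mono' (int_min.const_mul K') hdm.aestronglyMeasurable ?_
    refine (ae_restrict_iff' measurableSet_Ioi).2 (Eventually.of_forall fun β hβ => ?_)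
    have hβ0 : (0 : ℝ) < β := hβ
    rw [Real.norm_eq_abs, abs_of_nonneg (hd β hβ0).1]
    exact (hd β hβ0).2
  have hII : ∀ s t : ℝ, 0 < s → s ≤ t →
      IntervalIntegrable (fun β : ℝ => p * y β ^ (q + 1) * d β) volume s t := by
    intro s t hs hst
    rw [intervalIntegrable_iff_integrableOn_Ioc_of_le hst]
    exact hI.mono_set fun x hx => lt_trans hs hx.1
  have hdII : ∀ s t : ℝ, 0 < s → s ≤ t → IntervalIntegrable d volume s t := by
    intro s t hs hst
    rw [intervalIntegrable_iff_integrableOn_Ioc_of_le hst]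
    exact hdI.mono_set fun x hx => lt_trans hs hx.1
  -- the quadratic estimate
  have hquad : ∀ s t : ℝ, 0 < s → s ≤ t →
      |y t ^ (q + 2) - y s ^ (q + 2) - ∫ β in s..t, p * y β ^ (q + 1) * d β| ≤
        p * (((q : ℕ) : ℝ) + 1) * R ^ (q) * K' ^ 2 * (t - s) ^ 2 := by
    intro s t hs hst
    have ht : 0 < t := hs.trans_le hst
    set A := y s with hA
    set B := y t with hB
    have hA0 : 0 ≤ A := (hy s hs).1
    have hAB : A ≤ B := hmono hs ht hst
    have hB0 : 0 ≤ B := hA0.trans hAB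
    have hBR : B ≤ R := (hy t ht).2.2
    have hBA : 0 ≤ B - A := sub_nonneg.2 hAB
    have hD : B - A = ∫ β in s..t, d β := hint s t hs hst
    have hDle : B - A ≤ K' * (t - s) := by
      rw [hD]
      have h1 : (∫ β in s..t, d β) ≤ ∫ _β in s..t, K' := by
        refine intervalIntegral.integral_mono_on hst (hdII s t hs hst)
          intervalIntegrable_const ?_
        intro β hβ
        have hβ0 : 0 < β := hs.trans_le hβ.1
        refine (hd β hβ0).2.trans ?_
        calc K' * min 1 ((β ^ 3)⁻¹) ≤ K' * 1 :=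
              mul_le_mul_of_nonneg_left (min_le_left _ _) hK'
          _ = K' := mul_one _
      rw [intervalIntegral.integral_const, smul_eq_mul] at h1
      linarith
    have hG1 : p * A ^ (q + 1) * (B - A) ≤ ∫ β in s..t, p * y β ^ (q + 1) * d β := by
      rw [hD, ← intervalIntegral.integral_const_mul]
      refine intervalIntegral.integral_mono_on hst ((hdII s t hs hst).const_mul _)
        (hII s t hs hst) ?_
      intro β hβ
      have hβ0 : 0 < β := hs.trans_le hβ.1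
      have h1 : A ^ (q + 1) ≤ y β ^ (q + 1) :=
        pow_le_pow_left₀ hA0 (hmono hs hβ0 hβ.1) _
      exact mul_le_mul_of_nonneg_right (mul_le_mul_of_nonneg_left h1 hp0) (hd β hβ0).1
    have hG2 : (∫ β in s..t, p * y β ^ (q + 1) * d β) ≤ p * B ^ (q + 1) * (B - A) := by
      rw [hD, ← intervalIntegral.integral_const_mul]
      refine intervalIntegral.integral_mono_on hst (hII s t hs hst)
        ((hdII s t hs hst).const_mul _) ?_
      intro β hβ
      have hβ0 : 0 < β := hs.trans_le hβ.1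
      have h1 : y β ^ (q + 1) ≤ B ^ (q + 1) :=
        pow_le_pow_left₀ (hy β hβ0).1 (hmono hβ0 ht hβ.2) _
      exact mul_le_mul_of_nonneg_right (mul_le_mul_of_nonneg_left h1 hp0) (hd β hβ0).1
    have hP := pow_diff A B hA0 hAB (q + 1)
    have hP2 := (pow_diff A B hA0 hAB (q)).2
    have hdiff : |B ^ (q + 2) - A ^ (q + 2) - ∫ β in s..t, p * y β ^ (q + 1) * d β| ≤
        p * B ^ (q + 1) * (B - A) - p * A ^ (q + 1) * (B - A) := by
      rw [abs_le]
      constructor
      · have h1 := hP.1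
        rw [← hp] at h1
        have e3 : q + 1 + 1 = q + 2 := rfl
        rw [e3] at h1
        linarith
      · have h1 := hP.2
        rw [← hp] at h1
        have e3 : q + 1 + 1 = q + 2 := rfl
        rw [e3] at h1
        linarith
    refine hdiff.trans ?_
    have h4 : p * B ^ (q + 1) * (B - A) - p * A ^ (q + 1) * (B - A) =
        p * ((B ^ (q + 1) - A ^ (q + 1)) * (B - A)) := by ring
    rw [h4]
    have h5 : (B ^ (q + 1) - A ^ (q + 1)) * (B - A) ≤
        (((q : ℕ) : ℝ) + 1) * R ^ (q) * (K' ^ 2 * (t - s) ^ 2) := by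
      have h6 : (B ^ (q + 1) - A ^ (q + 1)) * (B - A) ≤
          (((q : ℕ) : ℝ) + 1) * B ^ (q) * (B - A) * (B - A) :=
        mul_le_mul_of_nonneg_right hP2 hBA
      have h7 : B ^ (q) ≤ R ^ (q) := pow_le_pow_left₀ hB0 hBR _
      have h8 : (B - A) * (B - A) ≤ K' ^ 2 * (t - s) ^ 2 := by
        have := mul_le_mul hDle hDle hBA (hBA.trans hDle)
        calc (B - A) * (B - A) ≤ K' * (t - s) * (K' * (t - s)) := this
          _ = K' ^ 2 * (t - s) ^ 2 := by ring
      calc (B ^ (q + 1) - A ^ (q + 1)) * (B - A)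
          ≤ (((q : ℕ) : ℝ) + 1) * B ^ (q) * ((B - A) * (B - A)) := by
            rw [← mul_assoc]; exact h6
        _ ≤ (((q : ℕ) : ℝ) + 1) * R ^ (q) * (K' ^ 2 * (t - s) ^ 2) :=
            mul_le_mul (mul_le_mul_of_nonneg_left h7 (by positivity)) h8
              (mul_nonneg hBA hBA) (by positivity)
    calc p * ((B ^ (q + 1) - A ^ (q + 1)) * (B - A))
        ≤ p * ((((q : ℕ) : ℝ) + 1) * R ^ (q) * (K' ^ 2 * (t - s) ^ 2)) :=
          mul_le_mul_of_nonneg_left h5 hp0
      _ = p * (((q : ℕ) : ℝ) + 1) * R ^ (q) * K' ^ 2 * (t - s) ^ 2 := by ring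
  -- the density
  have hdens : ∀ b b' : ℝ, 0 < b → b ≤ b' →
      (∫ β in b..b', p * y β ^ (q + 1) * d β) = y b' ^ (q + 2) - y b ^ (q + 2) := by
    intro b b' hb hbb
    have h1 := const_of_quad (fun t => y t ^ (q + 2) - ∫ β in b..t, p * y β ^ (q + 1) * d β)
      b b' (p * (((q : ℕ) : ℝ) + 1) * R ^ (q) * K' ^ 2) hbb (by
        intro s t hs hst ht
        have hs0 : 0 < s := hb.trans_le hs
        have h2 := intervalIntegral.integral_add_adjacent_intervals
          (hII b s hb hs) (hII s t hs0 hst)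
        have h3 : (y t ^ (q + 2) - ∫ β in b..t, p * y β ^ (q + 1) * d β) -
            (y s ^ (q + 2) - ∫ β in b..s, p * y β ^ (q + 1) * d β) =
            y t ^ (q + 2) - y s ^ (q + 2) - ∫ β in s..t, p * y β ^ (q + 1) * d β := by
          rw [← h2]; ring
        show |(y t ^ (q + 2) - ∫ β in b..t, p * y β ^ (q + 1) * d β) -
            (y s ^ (q + 2) - ∫ β in b..s, p * y β ^ (q + 1) * d β)| ≤ _
        rw [h3]
        exact hquad s t hs0 hst)
    have h4 : y b' ^ (q + 2) - (∫ β in b..b', p * y β ^ (q + 1) * d β) =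
        y b ^ (q + 2) - ∫ β in b..b, p * y β ^ (q + 1) * d β := h1
    rw [intervalIntegral.integral_same] at h4
    linarith
  -- the limit at infinity
  have hinf : ∀ b : ℝ, 0 < b →
      (∫ β in Ioi b, p * y β ^ (q + 1) * d β) = R ^ (q + 2) - y b ^ (q + 2) := by
    intro b hb
    have hIb : IntegrableOn (fun β : ℝ => p * y β ^ (q + 1) * d β) (Ioi b) :=
      hI.mono_set (Ioi_subset_Ioi hb.le)
    have h1 := intervalIntegral_tendsto_integral_Ioi b hIb tendsto_id
    have h2 : Tendsto (fun i : ℝ => ∫ β in b..id i, p * y β ^ (q + 1) * d β) atTop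
        (𝓝 (R ^ (q + 2) - y b ^ (q + 2))) := by
      have h3 : Tendsto (fun i : ℝ => y i ^ (q + 2) - y b ^ (q + 2)) atTop
          (𝓝 (R ^ (q + 2) - y b ^ (q + 2))) := (hlim.pow (q + 2)).sub_const _
      refine h3.congr' ?_
      filter_upwards [eventually_ge_atTop b] with i hi
      exact (hdens b i hb hi).symm
    exact tendsto_nhds_unique h1 h2
  refine ⟨hI, ?_, hinf⟩
  -- the limit at zero
  have hsplit : ∀ b : ℝ, 0 < b → (∫ β in Ioi (0 : ℝ), p * y β ^ (q + 1) * d β) =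
      (∫ β in Ioc 0 b, p * y β ^ (q + 1) * d β) + (R ^ (q + 2) - y b ^ (q + 2)) := by
    intro b hb
    rw [← hinf b hb, ← setIntegral_union (Ioc_disjoint_Ioi le_rfl) measurableSet_Ioi
      (hI.mono_set fun x hx => hx.1) (hI.mono_set (Ioi_subset_Ioi hb.le)),
      Ioc_union_Ioi_eq_Ioi hb.le]
  have hsmall : ∀ b : ℝ, 0 < b →
      |∫ β in Ioc 0 b, p * y β ^ (q + 1) * d β| ≤ p * R ^ (q + 1) * K' * b := by
    intro b hb
    have h1 : ‖∫ β in Ioc 0 b, p * y β ^ (q + 1) * d β‖ ≤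
        p * R ^ (q + 1) * K' * volume.real (Ioc 0 b) := by
      refine norm_setIntegral_le_of_norm_le_const ?_ ?_
      · rw [Real.volume_Ioc]
        exact ENNReal.ofReal_lt_top
      · intro β hβ
        have hβ0 : 0 < β := hβ.1
        rw [Real.norm_eq_abs, abs_of_nonneg (hg0 β hβ0)]
        have h1 : y β ^ (q + 1) ≤ R ^ (q + 1) := pow_le_pow_left₀ (hy β hβ0).1 (hy β hβ0).2.2 _
        have h2 : d β ≤ K' := by
          refine (hd β hβ0).2.trans ?_
          calc K' * min 1 ((β ^ 3)⁻¹) ≤ K' * 1 :=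
                mul_le_mul_of_nonneg_left (min_le_left _ _) hK'
            _ = K' := mul_one _
        exact mul_le_mul (mul_le_mul_of_nonneg_left h1 hp0) h2 (hd β hβ0).1 (by positivity)
    rw [Real.volume_real_Ioc_of_le hb.le, sub_zero] at h1
    exact h1
  have hT : Tendsto (fun b : ℝ => (∫ β in Ioc 0 b, p * y β ^ (q + 1) * d β) +
      (R ^ (q + 2) - y b ^ (q + 2))) (𝓝[>] 0) (𝓝 (0 + (R ^ (q + 2) - 0))) := by
    refine Tendsto.add ?_ (Tendsto.sub tendsto_const_nhds ?_)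
    · rw [tendsto_zero_iff_abs_tendsto_zero]
      have h1 : Tendsto (fun b : ℝ => p * R ^ (q + 1) * K' * b) (𝓝[>] 0) (𝓝 0) := by
        have h2 : Tendsto (fun b : ℝ => p * R ^ (q + 1) * K' * b) (𝓝 0)
            (𝓝 (p * R ^ (q + 1) * K' * 0)) := tendsto_const_nhds.mul tendsto_id
        rw [mul_zero] at h2
        exact h2.mono_left nhdsWithin_le_nhds
      refine tendsto_of_tendsto_of_tendsto_of_le_of_le' tendsto_const_nhds h1 ?_ ?_
      · exact Eventually.of_forall fun b => abs_nonneg _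
      · filter_upwards [self_mem_nhdsWithin] with b hb
        exact hsmall b hb
    · have h1 : Tendsto (fun b : ℝ => (K * b) ^ (q + 2)) (𝓝[>] 0) (𝓝 0) := by
        have h2 : Tendsto (fun b : ℝ => (K * b) ^ (q + 2)) (𝓝 0) (𝓝 ((K * 0) ^ (q + 2))) :=
          (tendsto_const_nhds.mul tendsto_id).pow _
        rw [mul_zero, zero_pow (by omega)] at h2
        exact h2.mono_left nhdsWithin_le_nhds
      refine tendsto_of_tendsto_of_tendsto_of_le_of_le' tendsto_const_nhds h1 ?_ ?_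
      · filter_upwards [self_mem_nhdsWithin] with b hb
        exact pow_nonneg (hy b hb).1 _
      · filter_upwards [self_mem_nhdsWithin] with b hb
        exact pow_le_pow_left₀ (hy b hb).1 (hy b hb).2.1 _
  have hc : Tendsto (fun _ : ℝ => ∫ β in Ioi (0 : ℝ), p * y β ^ (q + 1) * d β) (𝓝[>] 0)
      (𝓝 (0 + (R ^ (q + 2) - 0))) := by
    refine hT.congr' ?_
    filter_upwards [self_mem_nhdsWithin] with b hb
    exact (hsplit b hb).symm
  have h5 := tendsto_nhds_unique tendsto_const_nhds hc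
  rw [h5]
  ring

/-- **PD3.** -/
theorem pd3 : Pd3Stmt := by
  intro R K K' y d hK hK' hmono hcont hy hlim hdm hd hint
  obtain ⟨h1, h2, h3⟩ := pdg 0 R K K' y d hK hK' hmono hcont hy hlim hdm hd hint
  have e : (fun β : ℝ => (((0 + 1 : ℕ) : ℝ) + 1) * y β ^ (0 + 1) * d β) =
      fun β : ℝ => 2 * y β * d β := by
    funext β
    norm_num
  rw [e] at h1 h2
  refine ⟨h1, h2, fun b hb => ?_⟩
  have h4 := h3 b hb
  rw [e] at h4
  exact h4

end Pool.Agent.REV.H30
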