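import Pool.Agent.REV.StmtsU3

set_option autoImplicit false

/-!
# Squad REV, row FN3: a fixed density has a finite comparison (copy of FIN, `n ≥ 3`)
-/

namespace Pool.Agent.REV.H30

open Set Pool.Agent.REV

/-- FN3. -/
theorem fn3 (h2 : Ne3Stmt) (h3 : Fr3Stmt) (h4 : Stb3Stmt) : Fn3Stmt := by
  intro n C K f hn hU hC hK hf hmon
  obtain ⟨c0, b0, hc0, hc02, hb0, hb01, hner⟩ := h2 n C K f hn hU hC hK hf
  obtain ⟨b1, hb1, hb11, hfar⟩ := h3 n C c0 f hn hU hC hc0 (by linarith) hmon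
  have hb : 0 < min b0 b1 := lt_min hb0 hb1
  have hs0 : 0 ≤ Real.sqrt (1 - c0 ^ 2) := Real.sqrt_nonneg _
  have hs1 : Real.sqrt (1 - c0 ^ 2) ≤ 1 := by
    rw [Real.sqrt_le_one]
    nlinarith [sq_nonneg c0]
  have hupp : Upp n (min b0 b1) f := by
    have hA := (hfar _ hb (min_le_right _ _)).union_right (hner _ hb (min_le_left _ _))
      (isGreatest_Icc hs0) (isLeast_Icc hs1)
    rwa [Icc_union_Icc_eq_Icc hs0 hs1] at hA
  have hble : min b0 b1 ≤ 1 := (min_le_left _ _).trans hb01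
  have he : 0 ≤ 1 / min b0 b1 - 1 := by
    rw [sub_nonneg, le_div_iff₀ hb]
    linarith
  have hlow := h4 n (n - 1) 0 C (1 / min b0 b1 - 1) f hn (by omega) (by omega) le_rfl hC.le he
    (fun t ht => (hU.pos t ht).le) (by
      have : 1 / (1 + (1 / min b0 b1 - 1)) = min b0 b1 := by
        rw [add_sub_cancel, one_div_one_div]
      rw [this]
      exact hupp)
  have hcast : (((n - 1 : ℕ) : ℝ) + 2) / ((n : ℝ) + 1) = 1 := by
    rw [Nat.cast_sub (by omega)]
    push_cast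
    rw [div_eq_one_iff_eq (by positivity)]
    ring
  rw [hcast, one_mul] at hlow
  refine ⟨1 / min b0 b1 - 1, he, ?_⟩
  have heq : ∀ t ∈ Icc (0 : ℝ) 1, TT n (n - 1) 0 C f t = f t := by
    intro t ht
    rw [hU.eq t ht]
    unfold TT
    rw [zero_mul, zero_add, show n - 1 - 1 = n - 2 by omega]
  intro s hs t ht hst
  have h5 := hlow hs ht hst
  unfold El at h5 ⊢
  rw [heq s hs, heq t ht] at h5
  exact h5

end Pool.Agent.REV.H30
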